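import Pool.Agent.Helper41.SQC.Goals

/-!
# Project SQ (MP_bb32d1_al), stage C, packet SQC-FM: left multiplication in every family
-/

set_option autoImplicit false

namespace Pool.Agent.Helper55.SQC

noncomputable section

open Matrix Pool.Agent.Helper19.SQ Pool.Agent.Helper41.SQC

/-! ### the conditions on `q` -/

theorem par_q0 {N l : ℕ} {q : ℂ} (h : Par N l q) : q ≠ 0 :=
  h.prim.ne_zero (by have := h.h3; omega)

theorem par_q1 {N l : ℕ} {q : ℂ} (h : Par N l q) : q ^ 2 ≠ 1 := by
  intro e
  have := Nat.le_of_dvd (by norm_num) (h.prim.dvd_of_pow_eq_one 2 e)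
  have := h.h3
  omega

theorem par_q2 {N l : ℕ} {q : ℂ} (h : Par N l q) : q ^ 2 ≠ -1 := by
  intro e
  have e4 : q ^ 4 = 1 := by
    have : q ^ 4 = (q ^ 2) ^ 2 := by ring
    rw [this, e]; norm_num
  have hd := h.prim.dvd_of_pow_eq_one 4 e4
  have hl := Nat.le_of_dvd (by norm_num) hd
  have h3 := h.h3
  have ho := h.odd
  interval_cases l
  · omega
  · exact absurd ho (by decide)

/-! ### contents -/

/-- a double sum over a finite set changes by the change at one point -/
theorem sum_upd {α : Type} [DecidableEq α] (s : Finset α) (f g : α → ℕ) (p : α)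
    (h : ∀ x, x ≠ p → f x = g x) : ∑ x ∈ s, f x + (if p ∈ s then g p else 0)
      = ∑ x ∈ s, g x + (if p ∈ s then f p else 0) := by
  by_cases hp : p ∈ s
  · rw [if_pos hp, if_pos hp, ← Finset.add_sum_erase s f hp, ← Finset.add_sum_erase s g hp]
    have e : ∑ x ∈ s.erase p, f x = ∑ x ∈ s.erase p, g x :=
      Finset.sum_congr rfl fun x hx => h x (Finset.ne_of_mem_erase hx)
    rw [e]
    ring
  · rw [if_neg hp, if_neg hp]
    have e : ∑ x ∈ s, f x = ∑ x ∈ s, g x :=
      Finset.sum_congr rfl fun x hx => h x (fun e => hp (e ▸ hx))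
    rw [e]

theorem cn_upd (N : ℕ) (b : ℕ → ℕ → ℕ) (i j c m : ℕ) :
    cn N (upd b i j c) m + (if i ≤ m ∧ m < j ∧ j ≤ N then b i j else 0)
      = cn N b m + (if i ≤ m ∧ m < j ∧ j ≤ N then c else 0) := by
  unfold cn
  rw [← Finset.sum_product', ← Finset.sum_product']
  have h := sum_upd (Finset.range (m + 1) ×ˢ Finset.Ioc m N)
    (fun p => upd b i j c p.1 p.2) (fun p => b p.1 p.2) (i, j) (by
      rintro ⟨x, y⟩ hne
      have : ¬ (x = i ∧ y = j) := fun h => hne (by rw [h.1, h.2])
      simp only [upd, if_neg this])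
  have e : ((i, j) ∈ Finset.range (m + 1) ×ˢ Finset.Ioc m N) = (i ≤ m ∧ m < j ∧ j ≤ N) := by
    simp only [Finset.mem_product, Finset.mem_range, Finset.mem_Ioc, eq_iff_iff]
    omega
  simp only [e] at h
  simp only [upd, and_self, if_true] at h ⊢
  exact h

theorem cn_inc (N : ℕ) (b : ℕ → ℕ → ℕ) (i j m : ℕ) :
    cn N (inc b i j) m = cn N b m + (if i ≤ m ∧ m < j ∧ j ≤ N then 1 else 0) := by
  have h := cn_upd N b i j (b i j + 1) m
  unfold inc
  split_ifs at h ⊢ with hc
  · omega
  · omega

theorem cn_mvr (N : ℕ) (b : ℕ → ℕ → ℕ) (i k m : ℕ) (hi : i < k) (hk : k < N) (hm : m < N)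
    (hb : b i k ≠ 0) :
    cn N (mvr b i k) m = cn N b m + (if m = k then 1 else 0) := by
  unfold mvr
  rw [cn_inc]
  have h := cn_upd N b i k (b i k - 1) m
  by_cases h1 : i ≤ m ∧ m < k
  · rw [if_pos ⟨h1.1, h1.2, hk.le⟩, if_pos ⟨h1.1, h1.2, hk.le⟩] at h
    rw [if_pos ⟨h1.1, by omega, by omega⟩, if_neg (by omega)]
    omega
  · rw [if_neg (by omega), if_neg (by omega)] at h
    by_cases h2 : m = k
    · rw [if_pos ⟨by omega, by omega, by omega⟩, if_pos h2]
      omega
    · rw [if_neg (by omega), if_neg h2]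
      omega

/-! ### admissibility of the targets -/

theorem mon_zero' {R : Type} [Ring R] [Algebra ℂ R] {N l : ℕ} {q : ℂ} {E : ℕ → R}
    (hp : ∀ d i, rvA q E d i ^ l = 0) {b : ℕ → ℕ → ℕ} {i j : ℕ} (hij : i < j) (hj : j ≤ N)
    (hb : l ≤ b i j) : mon N q E b = 0 := by
  unfold mon
  refine List.prod_eq_zero ?_
  rw [List.mem_map]
  refine ⟨i, List.mem_range.2 (by omega), ?_⟩
  unfold rowM
  refine List.prod_eq_zero ?_
  rw [List.mem_map]
  refine ⟨j - i - 1, List.mem_range.2 (by omega), ?_⟩
  have e : i + 1 + (j - i - 1) = j := by omega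
  rw [e]
  unfold rv
  obtain ⟨c, hc⟩ := Nat.exists_eq_add_of_le hb
  rw [hc, pow_add, hp, zero_mul]

/-- supported on the pairs `i < j ≤ N` -/
def Supp (N : ℕ) (b : ℕ → ℕ → ℕ) : Prop := ∀ i j, ¬ (i < j ∧ j ≤ N) → b i j = 0

theorem supp_inc {N : ℕ} {b : ℕ → ℕ → ℕ} (hb : Supp N b) {i j : ℕ} (hij : i < j) (hj : j ≤ N) :
    Supp N (inc b i j) := by
  intro x y h
  unfold inc upd
  rw [if_neg (by rintro ⟨rfl, rfl⟩; exact h ⟨hij, hj⟩)]
  exact hb x y h

theorem supp_mvr {N : ℕ} {b : ℕ → ℕ → ℕ} (hb : Supp N b) {i k : ℕ} (hik : i < k) (hk : k < N) :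
    Supp N (mvr b i k) := by
  unfold mvr
  refine supp_inc ?_ (by omega) (by omega)
  intro x y h
  unfold upd
  rw [if_neg (by rintro ⟨rfl, rfl⟩; exact h ⟨hik, by omega⟩)]
  exact hb x y h

/-- the sum over the admissible exponents of the delta function at `t` times the monomial -/
theorem sum_delta {R : Type} [Ring R] [Algebra ℂ R] {N l : ℕ} {q : ℂ} {E : ℕ → R}
    (hp : ∀ d i, rvA q E d i ^ l = 0) {t : ℕ → ℕ → ℕ} (ht : Supp N t) (c : ℂ) :
    ∑ b : EX N l, (open Classical in if b.1 = t then c else 0) • mon N q E b.1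
      = c • mon N q E t := by
  classical
  by_cases h : ∀ i j, i < j ∧ j ≤ N → t i j < l
  · have hx : IsEx N l t := fun i j => ⟨h i j, ht i j⟩
    rw [Finset.sum_eq_single (⟨t, hx⟩ : EX N l)]
    · simp
    · intro b _ hb
      rw [if_neg (fun e => hb (Subtype.ext e)), zero_smul]
    · intro h'
      exact absurd (Finset.mem_univ _) h'
  · have h0 := h
    push Not at h
    obtain ⟨i, j, ⟨hij, hj⟩, hb⟩ := h
    rw [mon_zero' hp hij hj hb, smul_zero]
    refine Finset.sum_eq_zero fun b _ => ?_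
    rw [if_neg, zero_smul]
    intro e
    apply h0
    intro x y hxy
    rw [← e]
    exact (b.2 x y).1 hxy

/-- **Packet SQC-FM** -/
theorem c_fm (hLM : S_LM) : S_FM := by
  refine ⟨?_, ?_⟩
  · intro R _ _ N l q E hpar hS hout hp k a
    by_cases hk : k < N
    · have hs : Supp N a.1 := fun i j h => (a.2 i j).2 h
      rw [hLM R N q E (par_q0 hpar) (par_q1 hpar) (par_q2 hpar) hS a.1 k hk]
      have e : ∀ b : EX N l, PhM N l q k b a • mon N q E b.1
          = (∑ i ∈ Finset.range k, (open Classical in if b.1 = mvr a.1 i k then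
              wL q a.1 k i * (-q * qn q (a.1 i k)) else 0) • mon N q E b.1)
            + (open Classical in if b.1 = inc a.1 k (k + 1) then wL q a.1 k k else 0)
              • mon N q E b.1 := by
        intro b
        unfold PhM Lf
        rw [Matrix.of_apply, if_pos hk, add_smul, Finset.sum_smul]
      rw [Finset.sum_congr rfl fun b _ => e b, Finset.sum_add_distrib, Finset.sum_comm,
        sum_delta hp (supp_inc hs (show k < k + 1 by omega) (show k + 1 ≤ N by omega))]
      congr 1
      refine Finset.sum_congr rfl fun i hi => ?_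
      rw [sum_delta hp (supp_mvr hs (Finset.mem_range.1 hi) hk)]
    · rw [hout k (by omega), zero_mul]
      symm
      refine Finset.sum_eq_zero fun b _ => ?_
      unfold PhM
      rw [Matrix.of_apply, if_neg hk, zero_smul]
  · intro N l q k a b h
    classical
    unfold PhM at h
    rw [Matrix.of_apply] at h
    by_cases hk : k < N
    · refine ⟨hk, fun m hm => ?_⟩
      rw [if_pos hk] at h
      unfold Lf at h
      by_cases h1 : b.1 = inc a.1 k (k + 1)
      · rw [h1, cn_inc]
        by_cases h2 : m = k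
        · rw [if_pos ⟨by omega, by omega, by omega⟩, if_pos h2]
        · rw [if_neg (by omega), if_neg h2]
      · rw [if_neg h1, add_zero] at h
        obtain ⟨i, hi, hne⟩ := Finset.exists_ne_zero_of_sum_ne_zero h
        have hik : i < k := Finset.mem_range.1 hi
        by_cases h2 : b.1 = mvr a.1 i k
        · rw [if_pos h2] at hne
          have h0 : a.1 i k ≠ 0 := by
            intro e
            apply hne
            rw [e]
            simp [qn]
          rw [h2, cn_mvr N a.1 i k m hik hk hm h0]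
        · rw [if_neg h2] at hne
          exact absurd rfl hne
    · rw [if_neg hk] at h
      exact absurd rfl h

end

end Pool.Agent.Helper55.SQC
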